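import Pool.Agent.MP_8ba54e_co.Mg.Model

namespace Pool.Agent.Results.MP_8ba54e_co.OrderThree

open Pool.Agent.MP_8ba54e_co

universe u v

theorem result (G : Geom.{u}) (G' : Geom.{v}) (h : G.IsHexagon 3 27) (h' : G'.IsHexagon 3 27)
    (c : G.Contains (splitCayley (ZMod 3)).dual) (c' : G'.Contains (splitCayley (ZMod 3)).dual) : G.Iso G' :=
  unique h h' c c'

end Pool.Agent.Results.MP_8ba54e_co.OrderThree
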